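import Mathlib
import Pool.Agent.R494.CG7

set_option autoImplicit false

/-!
The vectors of `k` successive gaps between consecutive primes that occur infinitely often form an
asymptotic basis of finite order: every vector with large coordinates divisible by `E` is a sum of
exactly `m` of them, for every large `m`, with `E = 2` or `E = 3` (gaps in units of `q`).
-/

namespace Pool.Agent.Results.MP_3ec731_nt.GapVectorsFormBasis

open Finset Pool.Agent.R494.CG

theorem nth_step {a b s : ℕ} (ha : Nat.nth Nat.Prime s = a) (hb : b.Prime) (hab : a < b)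
    (hno : ∀ c, a < c → c < b → ¬ c.Prime) : Nat.nth Nat.Prime (s + 1) = b := by
  have h1 : Nat.nth Nat.Prime (Nat.count Nat.Prime b) = b := Nat.nth_count hb
  have hmono := Nat.nth_strictMono Nat.infinite_setOf_prime
  have h2 : s < Nat.count Nat.Prime b := by
    rw [← hmono.lt_iff_lt, h1, ha]
    exact hab
  rcases Nat.lt_or_ge (s + 1) (Nat.count Nat.Prime b) with h3 | h3
  · exfalso
    have h4 : Nat.nth Nat.Prime (s + 1) < b := by
      rw [← h1]
      exact hmono h3
    have h5 : a < Nat.nth Nat.Prime (s + 1) := by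
      rw [← ha]
      exact hmono (Nat.lt_succ_self s)
    exact hno _ h5 h4 (Nat.prime_nth_prime _)
  · have h4 : Nat.count Nat.Prime b = s + 1 := by omega
    rw [← h4, h1]

theorem conv {q k : ℕ} {r : ℤ} (hq : 1 ≤ q) {g : Fin k → ℤ} (hg : g ∈ GV q r k) :
    {s : ℕ | (Nat.nth Nat.Prime s : ℤ) ≡ r [ZMOD q] ∧ ∀ i : Fin k,
      (Nat.nth Nat.Prime (s + i + 1) : ℤ) - Nat.nth Nat.Prime (s + i) = q * g i}.Infinite := by
  obtain ⟨h, hmono, h0, hgi, hinf⟩ := hg
  have hq0 : (0 : ℤ) < q := by exact_mod_cast hq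
  have hpos : ∀ i, 0 ≤ h i := fun i => by
    rw [← h0]
    exact hmono.monotone (Fin.zero_le i)
  have hlast : ∀ i, h i ≤ h (Fin.last k) := fun i => hmono.monotone (Fin.le_last i)
  have hinj : Set.InjOn (fun n : ℕ => Nat.count Nat.Prime n)
      {n : ℕ | (n : ℤ) ≡ r [ZMOD q] ∧ ∀ y : ℤ, 0 ≤ y → y ≤ q * h (Fin.last k) →
        (Nat.Prime ((n : ℤ) + y).toNat ↔ ∃ i, y = q * h i)} := by
    intro n hn m hm hnm
    have hnp : n.Prime := by
      have := (hn.2 0 le_rfl (by have := hpos (Fin.last k); positivity)).2 ⟨0, by simp [h0]⟩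
      simpa using this
    have hmp : m.Prime := by
      have := (hm.2 0 le_rfl (by have := hpos (Fin.last k); positivity)).2 ⟨0, by simp [h0]⟩
      simpa using this
    have h1 := Nat.nth_count hnp
    have h2 := Nat.nth_count hmp
    simp only at hnm
    rw [← h1, ← h2, hnm]
  refine ((hinf.image hinj)).mono ?_
  rintro s ⟨n, hn, rfl⟩
  have hnp : n.Prime := by
    have := (hn.2 0 le_rfl (by have := hpos (Fin.last k); positivity)).2 ⟨0, by simp [h0]⟩
    simpa using this
  have key : ∀ j : ℕ, ∀ hj : j < k + 1,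
      (Nat.nth Nat.Prime (Nat.count Nat.Prime n + j) : ℤ) = n + q * h ⟨j, hj⟩ := by
    intro j
    induction j with
    | zero =>
      intro hj
      have : (⟨0, hj⟩ : Fin (k + 1)) = 0 := rfl
      rw [this, h0, add_zero, Nat.nth_count hnp]
      ring
    | succ j ih =>
      intro hj
      have ih' := ih (by omega)
      have hlt : h ⟨j, by omega⟩ < h ⟨j + 1, hj⟩ := hmono (by simp [Fin.lt_def])
      have hp0 := hpos ⟨j, by omega⟩
      have hp1 := hpos ⟨j + 1, hj⟩
      have hl1 := hlast ⟨j + 1, hj⟩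
      have hb0 : (0 : ℤ) ≤ q * h ⟨j + 1, hj⟩ := by positivity
      have hbp : Nat.Prime ((n : ℤ) + q * h ⟨j + 1, hj⟩).toNat :=
        (hn.2 _ hb0 (by nlinarith)).2 ⟨_, rfl⟩
      have hbz : ((((n : ℤ) + q * h ⟨j + 1, hj⟩).toNat : ℕ) : ℤ) = n + q * h ⟨j + 1, hj⟩ :=
        Int.toNat_of_nonneg (by positivity)
      have hstep := nth_step (s := Nat.count Nat.Prime n + j) rfl hbp (by
        have : (Nat.nth Nat.Prime (Nat.count Nat.Prime n + j) : ℤ) <
            ((((n : ℤ) + q * h ⟨j + 1, hj⟩).toNat : ℕ) : ℤ) := by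
          rw [ih', hbz]
          nlinarith
        exact_mod_cast this) (by
        intro c hc1 hc2 hcp
        have hc1' : (n : ℤ) + q * h ⟨j, by omega⟩ < c := by
          rw [← ih']
          exact_mod_cast hc1
        have hc2' : (c : ℤ) < n + q * h ⟨j + 1, hj⟩ := by
          rw [← hbz]
          exact_mod_cast hc2
        have hq1 : (0 : ℤ) ≤ q * h ⟨j, by omega⟩ := by positivity
        have hcy := (hn.2 ((c : ℤ) - n) (by linarith) (by nlinarith)).1 (by
          rw [show (n : ℤ) + ((c : ℤ) - n) = c by ring]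
          simpa using hcp)
        obtain ⟨i, hi⟩ := hcy
        have h3 : h ⟨j, by omega⟩ < h i := by
          by_contra hcon
          push Not at hcon
          nlinarith
        have h4 : h i < h ⟨j + 1, hj⟩ := by
          by_contra hcon
          push Not at hcon
          nlinarith
        have h5 := hmono.lt_iff_lt.1 h3
        have h6 := hmono.lt_iff_lt.1 h4
        simp only [Fin.lt_def] at h5 h6
        omega)
      rw [show Nat.count Nat.Prime n + (j + 1) = Nat.count Nat.Prime n + j + 1 by ring, hstep, hbz]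
  refine ⟨?_, fun i => ?_⟩
  · have := key 0 (by omega)
    rw [add_zero] at this
    rw [this]
    have h00 : (⟨0, by omega⟩ : Fin (k + 1)) = 0 := rfl
    rw [h00, h0]
    simpa using hn.1
  · have h1 := key i (by omega)
    have h2 := key (i + 1) (by omega)
    rw [show Nat.count Nat.Prime n + (i : ℕ) + 1 = Nat.count Nat.Prime n + ((i : ℕ) + 1) by ring, h2,
      h1, hgi i]
    have e1 : (⟨(i : ℕ) + 1, by omega⟩ : Fin (k + 1)) = i.succ := rfl
    have e2 : (⟨(i : ℕ), by omega⟩ : Fin (k + 1)) = i.castSucc := rfl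
    rw [e1, e2]
    ring

/-- For `k ≥ 1`, an even `q ≥ 1` and `r` coprime to `q` there are `E ∈ {2, 3}` and `m₀` such that for
every `m ≥ m₀` there is `C` for which every vector `w` of `k` integers `≥ C` satisfies
`E w = v_1 + ... + v_m`, where for each `j` there are infinitely many indices `s` with
`p_s ≡ r (mod q)` and `p_(s+i+1) - p_(s+i) = q (v_j)_i` for all `i < k` (`p_s` the `s`-th prime). -/
theorem _root_.Pool.Agent.Results.MP_3ec731_nt.GapVectorsFormBasis.result
    (k q : ℕ) (r : ℤ) (hk : 1 ≤ k) (hq : 1 ≤ q) (hq2 : Even q) (hqr : IsCoprime r (q : ℤ)) :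
    ∃ E : ℤ, (E = 2 ∨ E = 3) ∧ ∃ m₀ : ℕ, ∀ m ≥ m₀, ∃ C : ℤ, ∀ w : Fin k → ℤ, (∀ i, C ≤ w i) →
      ∃ v : Fin m → Fin k → ℤ,
        (∀ j, {s : ℕ | (Nat.nth Nat.Prime s : ℤ) ≡ r [ZMOD q] ∧ ∀ i : Fin k,
          (Nat.nth Nat.Prime (s + i + 1) : ℤ) - Nat.nth Nat.Prime (s + i) = q * v j i}.Infinite) ∧
        ∑ j, v j = E • w := by
  obtain ⟨E, hE, m₀, h⟩ := main k q r hk hq hq2 hqr
  refine ⟨E, hE, m₀, fun m hm => ?_⟩
  obtain ⟨C, hC⟩ := h m hm
  refine ⟨C, fun w hw => ?_⟩
  obtain ⟨v, hv, hs⟩ := hC w hw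
  exact ⟨v, fun j => conv hq (hv j), hs⟩

end Pool.Agent.Results.MP_3ec731_nt.GapVectorsFormBasis
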