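import Mathlib
import Pool.Agent.R527.LV.Main
import Pool.Agent.H361R2.PP.Asm4
import Pool.Agent.W218.TX.Up
import Pool.Agent.TH891.SG.Gal4

/-!
# Patterns of consecutive primes with long gaps, with the right order of frequency

For all `k` and `K` there are `c > 0`, `M` and `x₀` such that for all `x ≥ x₀` at least
`c (log x) ^ k` vectors `h` with `K log x ≤ h i ≤ M log x`, in which moreover every entry is at least
`K` times the preceding ones, are the vector of `k` successive gaps between consecutive primes for at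
least `c (1 + 𝔖 h) x / (log x) ^ (k + 1)` strings of consecutive primes up to `x`, where `𝔖 h` is the
singular series of the pattern `{0, h 0, h 0 + h 1, …}`.
-/

set_option autoImplicit false

open Finset

namespace Pool.Agent.Results.MP_3ec731_nt.LongGapPatterns

/-- the pattern `{0, h 0, h 0 + h 1, …}` of the primes whose successive gaps are the entries of `h` -/
def pattern {k : ℕ} (h : Fin k → ℕ) : Finset ℕ :=
  (univ : Finset (Fin (k + 1))).image (fun i : Fin (k + 1) => ∑ j : Fin k, if (j : ℕ) < (i : ℕ) then h j else 0)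

/-- the number of residue classes modulo `p` occupied by `T` -/
def nu (T : Finset ℕ) (p : ℕ) : ℕ := (T.image (· % p)).card

/-- the factor at `p` of the singular series -/
noncomputable def loc (T : Finset ℕ) (p : ℕ) : ℝ :=
  (1 - (nu T p : ℝ) / p) / (1 - 1 / (p : ℝ)) ^ T.card

/-- the singular series of `T` -/
noncomputable def 𝔖 (T : Finset ℕ) : ℝ := ∏' p : Nat.Primes, loc T p

/-- the number of the strings of `k + 1` consecutive primes up to `x` whose vector of gaps is `h` -/
noncomputable def count {k : ℕ} (x : ℕ) (h : Fin k → ℕ) : ℕ :=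
  Set.ncard {n : ℕ | Nat.nth Nat.Prime (n + k) ≤ x ∧
    ∀ i : Fin k, Nat.nth Nat.Prime (n + i + 1) = Nat.nth Nat.Prime (n + i) + h i}

open Pool.Agent.H387R2 Pool.Agent.R527.LV

theorem count_eq {k : ℕ} (x : ℕ) (h : Fin k → ℕ) : count x h = cnt x h := by
  classical
  unfold count cnt
  rw [← Set.ncard_coe_finset]
  congr 1
  ext n
  simp only [Set.mem_ofPred_eq, coe_filter, mem_range]
  constructor
  · rintro ⟨h1, h2⟩
    refine ⟨?_, h1, h2⟩
    have h3 : Nat.nth Nat.Prime n ≤ Nat.nth Nat.Prime (n + k) :=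
      Nat.nth_monotone Nat.infinite_setOfPred_prime (by omega)
    by_contra hcon
    rw [not_lt] at hcon
    have h4 : Nat.count Nat.Prime (x + 1) ≤ n := by
      simpa [Nat.primeCounting, Nat.primeCounting'] using hcon
    have h5 : x + 1 ≤ Nat.nth Nat.Prime n :=
      (Nat.count_le_iff_le_nth Nat.infinite_setOfPred_prime).1 h4
    omega
  · rintro ⟨_, h1, h2⟩
    exact ⟨h1, h2⟩

/-- For every `k` and every real `K` there are `c > 0`, `M` and `x₀` such that for all `x ≥ x₀` the
number of vectors `h` of `k` natural numbers with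

* `K log x ≤ h i ≤ M log x` for all `i`,
* `K h i ≤ h j` for all `i < j`,
* at least `c (1 + 𝔖 (pattern h)) x / (log x) ^ (k + 1)` strings of `k + 1` consecutive primes up to
  `x` with the vector of gaps `h`,

is at least `c (log x) ^ k`. -/
theorem result (k : ℕ) (K : ℝ) : ∃ c : ℝ, 0 < c ∧ ∃ M : ℝ, ∃ x₀ : ℕ, ∀ x : ℕ, x₀ ≤ x →
    c * Real.log x ^ k ≤ (Set.ncard {h : Fin k → ℕ |
      (∀ i, K * Real.log x ≤ h i ∧ (h i : ℝ) ≤ M * Real.log x) ∧
      (∀ i j : Fin k, i < j → K * h i ≤ h j) ∧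
      c * (1 + 𝔖 (pattern h)) * (x / Real.log x ^ (k + 1)) ≤ count x h} : ℝ) := by
  classical
  have hrun : ∀ (K : ℝ) (r : ℕ), ∃ c : ℝ, 0 < c ∧ ∃ N₀ : ℕ, ∀ N : ℕ, N₀ ≤ N →
      c * N ≤ (((range N).filter (fun j =>
        K * Real.log (P j) ≤ (P (j + 1) : ℝ) - P j ∧
        ∀ i < r, K * ((P (j + i + 1) : ℝ) - P (j + i)) ≤ (P (j + i + 2) : ℝ) - P (j + i + 1))).card : ℝ) := by
    intro K r
    obtain ⟨c, hc, N₀, h⟩ := Pool.Agent.H361R2.PP.runInc K r
    refine ⟨c, hc, N₀, fun N hN => ?_⟩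
    have h1 := h N hN
    simp only [Pool.Agent.H361R2.PP.P] at h1
    simp only [P]
    convert h1 using 3 <;> exact Finset.filter_congr_decidable _ _ _
  obtain ⟨c, hc, M, hev⟩ := main k (max K 1) (le_max_right _ _) hrun
    (Pool.Agent.W218.TX.pi_upper k) (Pool.Agent.TH891.SG.CT_mom k 2) Uni.CT_nonneg
  obtain ⟨x₀, hx₀⟩ := Filter.eventually_atTop.1 hev
  refine ⟨c, hc, max M 0, max x₀ 1, fun x hx => ?_⟩
  have hx1 : 1 ≤ x := le_trans (le_max_right _ _) hx
  have h1 := hx₀ x (le_trans (le_max_left _ _) hx)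
  have hL : 0 ≤ Real.log (x : ℝ) := Real.log_nonneg (by exact_mod_cast hx1)
  refine h1.trans ?_
  rw [← Set.ncard_coe_finset]
  have hfin : Set.Finite {h : Fin k → ℕ |
      (∀ i, K * Real.log x ≤ h i ∧ (h i : ℝ) ≤ max M 0 * Real.log x) ∧
      (∀ i j : Fin k, i < j → K * h i ≤ h j) ∧
      c * (1 + 𝔖 (pattern h)) * (x / Real.log x ^ (k + 1)) ≤ count x h} := by
    apply (Fintype.piFinset (fun _ : Fin k => Finset.range (⌊max M 0 * Real.log x⌋₊ + 1))).finite_toSet.subset
    intro h hh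
    rw [Set.mem_ofPred_eq] at hh
    rw [mem_coe, Fintype.mem_piFinset]
    intro i
    rw [mem_range, Nat.lt_succ_iff]
    exact Nat.le_floor (hh.1 i).2
  have hsub : (((box k ⌊M * Real.log x⌋₊).filter (fun h => Gr (max K 1) (Real.log x) h ∧
        c * (1 + Uni.CT (pat h)) * (x / Real.log x ^ (k + 1)) ≤ cnt x h) : Finset (Fin k → ℕ)) :
        Set (Fin k → ℕ)) ⊆ {h : Fin k → ℕ |
      (∀ i, K * Real.log x ≤ h i ∧ (h i : ℝ) ≤ max M 0 * Real.log x) ∧
      (∀ i j : Fin k, i < j → K * h i ≤ h j) ∧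
      c * (1 + 𝔖 (pattern h)) * (x / Real.log x ^ (k + 1)) ≤ count x h} := by
    intro h hh
    rw [mem_coe, mem_filter, mem_box] at hh
    obtain ⟨h2, ⟨h3, h4⟩, h5⟩ := hh
    rw [Set.mem_ofPred_eq]
    refine ⟨fun i => ⟨?_, ?_⟩, fun i j hij => ?_, ?_⟩
    · exact (mul_le_mul_of_nonneg_right (le_max_left _ _) hL).trans (h3 i)
    · have h6 := (h2 i).2
      have h7 : (1 : ℕ) ≤ ⌊M * Real.log x⌋₊ := (h2 i).1.trans h6
      have h8 : 0 ≤ M * Real.log x := by
        by_contra hcon
        rw [not_le] at hcon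
        rw [Nat.floor_of_nonpos hcon.le] at h7
        omega
      have h9 : (h i : ℝ) ≤ ⌊M * Real.log x⌋₊ := by exact_mod_cast h6
      exact (h9.trans (Nat.floor_le h8)).trans (mul_le_mul_of_nonneg_right (le_max_left _ _) hL)
    · exact (mul_le_mul_of_nonneg_right (le_max_left _ _) (Nat.cast_nonneg _)).trans (h4 i j hij)
    · rw [count_eq]
      exact h5
  exact_mod_cast Set.ncard_le_ncard hsub hfin

end Pool.Agent.Results.MP_3ec731_nt.LongGapPatterns
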