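import Mathlib
import Pool.Agent.R494.QR3

set_option autoImplicit false

/-!
# Almost all graphs of quadratic residues occur among consecutive primes

Attach to `k + 1` consecutive primes `p_s < ... < p_(s+k)` the graph on `{0, ..., k}` in which `i < j` are joined
if `p_(s+j)` is a quadratic residue modulo `p_(s+i)`. One expects that each of the `2 ^ (k (k + 1) / 2)` labelled
graphs occurs infinitely often, also for primes in a given residue class. The theorem: at least
`2 ^ (k (k + 1) / 2) / C(40 (2 k + 1) (k + 1), k + 1)`, that is `2 ^ (k ^ 2 / 2 - O(k log k))`, of the graphs do.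

Proof: (1) there are increasing positions whose differences have private primes; so a residue class of `n` can be
chosen for which all the symbols of the numbers `n + h`, `n + h'` have prescribed values, with exact patterns of
primes among these numbers; (2) by the theorem on the coloured sieve of Maynard and Tao with few repetitions in
the groups (`Pool.Agent.TH779.Ord.exact_few` of the starting files) every symmetric pattern of symbols of
`T = 40 (2 k + 1) (k + 1)` groups contains one, on `k + 1` of the groups, which belongs to consecutive primes;
(3) counting.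
-/

namespace Pool.Agent.Results.MP_3ec731_nt.ResidueGraphs

/-- For `k ≥ 1`, `m ≥ 1` and `r` prime to `m`: the number of the graphs `G` on `{0, ..., k}` such that for
infinitely many `s` the consecutive primes `p_s, ..., p_(s+k)` are all `≡ r (mod m)` and, for all `i < j`, `i` and
`j` are joined in `G` if and only if `p_(s+j)` is a square modulo `p_(s+i)`, is at least
`2 ^ C(k + 1, 2) / C(40 (2 k + 1) (k + 1), k + 1)`. -/
theorem result (k m r : ℕ) (hk : 1 ≤ k) (hm : 0 < m) (hr : r.Coprime m) :
    2 ^ ((k + 1).choose 2) ≤ (40 * (2 * k + 1) * (k + 1)).choose (k + 1) *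
      {G : SimpleGraph (Fin (k + 1)) | {s : ℕ |
        (∀ i : Fin (k + 1), Nat.nth Nat.Prime (s + i) ≡ r [MOD m]) ∧
        ∀ i j : Fin (k + 1), i < j → (G.Adj i j ↔
          IsSquare ((Nat.nth Nat.Prime (s + j) : ℕ) : ZMod (Nat.nth Nat.Prime (s + i))))}.Infinite}.ncard :=
  Pool.Agent.R494.QR.graphs k m r hk hm hr

end Pool.Agent.Results.MP_3ec731_nt.ResidueGraphs
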