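import Mathlib
import Pool.Agent.R494.RP2
import Pool.Agent.R494.CG7

set_option autoImplicit false

/-!
At least a third of all pairs of reduced residue classes modulo `q` are, infinitely often, the residues of two
consecutive primes; and the same holds within every set of reduced residue classes.

Proof: for any four classes `c_1, ..., c_4` there are exact patterns of primes near the multiples of `q`, contained
in four blocks of positions, one after the other, with residues `c_1, ..., c_4`, which meet two of the blocks (the
coloured Maynard-Tao theorem of the starting files with four colours). So there are `i < j` such that two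
consecutive primes have the residues `c_i`, `c_j`. Turan's theorem for graphs without a clique of four vertices is
applied to the remaining pairs `(a, b)` with `a < b`, and to those with `a > b`.
-/

namespace Pool.Agent.Results.MP_3ec731_nt.ThirdOfResiduePairs

open Finset Pool.Agent.R494.RP

open Classical in
/-- For every `q ≥ 1` there is `C` such that for every set `A` of reduced residues modulo `q` at least one third of
the pairs `(a, b)` of elements of `A` have the property: for infinitely many `s` the consecutive primes `p_s`,
`p_(s+1)` satisfy `p_s ≡ a`, `p_(s+1) ≡ b` modulo `q` and `p_(s+1) - p_s ≤ C`. -/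
theorem _root_.Pool.Agent.Results.MP_3ec731_nt.ThirdOfResiduePairs.result (q : ℕ) (hq : 1 ≤ q) :
    ∃ C : ℕ, ∀ A : Finset ℕ, (∀ a ∈ A, a < q ∧ a.Coprime q) →
      A.card ^ 2 ≤ 3 * ((A ×ˢ A).filter (fun x => {s : ℕ | Nat.nth Nat.Prime s ≡ x.1 [MOD q] ∧
        Nat.nth Nat.Prime (s + 1) ≡ x.2 [MOD q] ∧
        Nat.nth Nat.Prime (s + 1) ≤ Nat.nth Nat.Prime s + C}.Infinite)).card := by
  obtain ⟨C, hC⟩ := pair_of_four Pool.Agent.R494.CG.qg q hq
  refine ⟨C, fun A hA => ?_⟩
  have h1 := third (V := {a // a ∈ A}) (fun a b => Tr q C a b) (fun c => by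
    obtain ⟨i, j, hij, h⟩ := hC (fun g => (c g : ℕ)) (fun g => (hA _ (c g).2).2)
    exact ⟨i, j, hij, h⟩)
  rw [Fintype.card_coe] at h1
  refine h1.trans (Nat.mul_le_mul_left _ ?_)
  refine card_le_card_of_injOn (fun x => ((x.1 : ℕ), (x.2 : ℕ))) ?_ ?_
  · intro x hx
    have hx' := (mem_filter.1 hx).2
    rw [mem_coe, mem_filter, mem_product]
    exact ⟨⟨x.1.2, x.2.2⟩, hx'⟩
  · rintro ⟨a, b⟩ _ ⟨a', b'⟩ _ hxy
    simp only [Prod.mk.injEq] at hxy
    exact Prod.ext (Subtype.ext hxy.1) (Subtype.ext hxy.2)

end Pool.Agent.Results.MP_3ec731_nt.ThirdOfResiduePairs
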